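import Pool.Agent.N168.NC.Fam

/-!
# MP_2f3286_ag: norm-form curves in one-parameter families over number fields

Let `K` be a number field.  For a separable monic polynomial `h ∈ K[T]` of degree `d` with the étale
algebra `E = K[T]/(h)`, for `A₀, A₁, A₂ ∈ E`, `a ∈ K`, a divisor `n` of `d` and a form `Q` of degree
`d/n` over `K` we consider the plane curve

  `X : N_{E/K}(A₀ x₀ + A₁ x₁ + A₂ x₂) = a Q(x₀, x₁, x₂)ⁿ`

of degree `d`.  The `d` conjugate lines `A₀(θ) x₀ + A₁(θ) x₁ + A₂(θ) x₂ = 0`, for the roots `θ` of `h`,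
meet `X` with multiplicities divisible by `n`; for example for `d = 4`, `n = 2` the curve `X` is a plane
quartic for which they are four bitangents, and over an algebraically closed field every smooth plane
quartic is of this form.  We assume that `Q` does not vanish at the intersection points of these lines,
which is part of the smoothness of `X`.

We treat one-parameter families in which the field (or algebra) `E = E_t` varies together with
`a = g(t)`: let `g ∈ O_K[t]` and `H ∈ O_K[t][T]` be polynomials, `H` monic in `T`.  Let `D ≥ 2` and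
suppose that for some simple root `θ` of `g` in an algebraic closure of `K` the polynomial `H(θ, T)` is
separable, and that some `σ ∈ G_K` with `σ θ = θ` permutes the roots of `H(θ, T)` in cycles whose lengths
are divisible by `gcd(2, D) D`.  Then for all `t ∈ O_K` outside a set of density zero the following
holds for all `n | d`, ALL finite extensions `L` of `K` whose degree is not divisible by `gcd(n, D)`, ALL
`A₀, A₁, A₂ ∈ E_t` and ALL forms `Q` of degree `d/n` as above: the curve
`N_{E_t/K}(A₀ x₀ + A₁ x₁ + A₂ x₂) = g(t) Qⁿ` has no point over `L`, and the fundamental groups of all its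
open subcurves over `L`, and of all smooth curves (or varieties) over `L` that dominate it, have no
section over `G_L`.  So all these curves satisfy the section conjecture over all these `L`.

The set of the exceptional `t` has density zero in a strong sense: for every `ε > 0` there is an ideal
`I ≠ 0` such that the exceptional `t` lie in at most `ε #(O_K/I)` residue classes modulo `I`.

The case `g = t` and `E` constant is `constant_extension` below: let `E/K` be an extension of degree `d`
such that some element of `G_K` permutes the embeddings of `E` into `K̄` in cycles of lengths divisible by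
`gcd(2, D) D`; for instance `E/K` may be a Galois extension whose group has an element of an order
divisible by `gcd(2, D) D`, or an extension of degree `d`, a multiple of `gcd(2, D) D`, with the symmetric
group as group of the Galois closure.  Then for all `a ∈ O_K` outside a set of density zero, for all
`n | d`, all finite `L/K` with `gcd(n, D) ∤ [L : K]` and all `A_j`, `Q`, the curve
`N_{E/K}(A₀ x₀ + A₁ x₁ + A₂ x₂) = a Qⁿ` has no point over `L`, and the fundamental groups of its open
subcurves and of the curves that dominate it have no section over `G_L`.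

The fundamental group is described through valuations.  Let `U` be a smooth geometrically connected
curve over `k` with function field `F`, let `Ω` be an algebraic closure of `F`, and let `F_U` be the
maximal extension of `F` inside `Ω` which is unramified over the closed points of `U`, that is, over
their local rings, which are valuation rings of `F`.  Then `π₁(U) = Gal(F_U/F)`, and the map
`π₁(U) → G_k` is the restriction of automorphisms to the algebraic closure of `k` in `Ω`.

Proof.  By Chebotarev's theorem almost every `t` has a prime `v` such that `v(g(t)) = 1` and `H(t, T)`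
is separable modulo `v` with irreducible factors of degrees divisible by `gcd(2, D) D`.  Let `L/K` be
finite and `D' = gcd(n, D) ∤ [L : K]`.  For a prime number `l` with `v_l([L : K]) < v_l(D')` there is a
prime `w | v` of `L` with `v_l(e f) ≤ v_l([L : K])`; put `ℓ = l^(1 + v_l(e))`, a divisor of `D'`.  Then
the value of `g(t)` at `w` is not divisible by `ℓ`, and the degrees of the irreducible factors of
`H(t, T)` modulo `w` are divisible by `gcd(2, ℓ) ℓ`.  At such a prime the local theorem of the library (`TH377.NC.Local`) applies: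
for a section `s` the quotient `λ_i/λ_j` of two of the conjugate linear forms has an `ℓ`-th root in
`F_U`, so it is `c_{ij} β^ℓ` with `β` fixed by the section over an unramified extension, and the sum over
`i` of the valuations of `c_{ij}` is `0` modulo `ℓ` by the invariance under Frobenius, and is the value of
`g(t)` modulo `ℓ` by the equation.
-/

set_option autoImplicit false
set_option maxHeartbeats 400000

open Polynomial NumberField

namespace Pool.Agent.Results.MP_2f3286_ag.NormCurveFamilies

universe u v w x y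

section definitions

variable (k : Type u) (F : Type v) (Ω : Type w) [Field k] [Field F] [Field Ω] [Algebra k F]
  [Algebra F Ω] [Algebra k Ω]

/-- The inertia group of the valuation ring `W` of `Ω`, as a subgroup of `Gal(Ω/F)`: the
automorphisms of `Ω` over `F` that map `W` onto itself and act as the identity on its residue
field. -/
noncomputable def inertia (W : ValuationSubring Ω) : Subgroup (Ω ≃ₐ[F] Ω) :=
  (W.inertiaSubgroup F).map (W.decompositionSubgroup F).subtype

/-- `F_U`, for a set `U` of valuation rings of `F`: the elements of `Ω` fixed by the inertia groups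
of all valuation rings `W` of `Ω` with `W ∩ F ∈ U`.  If `Ω` is an algebraic closure of a field `F`
of characteristic zero, this is the maximal extension of `F` in `Ω` unramified over `U`. -/
noncomputable def unramified (U : Set (ValuationSubring F)) : IntermediateField F Ω :=
  ⨅ W : {W : ValuationSubring Ω // W.comap (algebraMap F Ω) ∈ U},
    IntermediateField.fixedField (inertia F Ω W.1)

/-- The map `τ : M → M` acts as `σ : K → K` on the elements that the fields `K` and `M` have in
common when they are regarded as subfields of `Ω` through `i` and `j`. -/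
def ActsAs {K M Ω : Type*} [Field K] [Field M] [Field Ω] (i : K →+* Ω) (j : M →+* Ω) (σ : K → K)
    (τ : M → M) : Prop :=
  ∀ c z, j z = i c → j (τ z) = i (σ c)

/-- Let `k ⊆ K ⊆ Ω` and `F ⊆ M ⊆ Ω` be fields.  A splitting of `Gal(M/F) → Gal(K/k)`: a continuous
homomorphism `s` from `Gal(K/k)` to `Gal(M/F)` such that `s(σ)` acts as `σ` on the elements of
`K ∩ M`. -/
structure Splitting (K M : Type*) [Field K] [Field M] [Algebra k K] [Algebra F M] [Algebra K Ω]
    [Algebra M Ω] where
  /-- the homomorphism `Gal(K/k) → Gal(M/F)` -/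
  toHom : (K ≃ₐ[k] K) →* (M ≃ₐ[F] M)
  cont : Continuous toHom
  compat : ∀ σ : K ≃ₐ[k] K, ActsAs (algebraMap K Ω) (algebraMap M Ω) σ (toHom σ)

/-- The sections of `π₁(U) = Gal(F_U/F) → G_k`: the continuous homomorphisms `s` from
`G_k = Gal(k̄/k)` to `Gal(F_U/F)`, where `k̄` is the algebraic closure of `k` in `Ω`, such that
`s(σ)` acts as `σ` on the elements of `k̄`. -/
def GaloisSection (U : Set (ValuationSubring F)) : Type w :=
  Splitting k F Ω (algebraicClosure k Ω) (unramified F Ω U)

end definitions

section algebra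

variable {K : Type u} [Field K]

/-- The equation `N(A₀ x₀ + A₁ x₁ + A₂ x₂) = a Q(x₀, x₁, x₂)ⁿ` for the norm `N` of the algebra
`K[T]/(h)`, at a vector `x` with entries in an algebraically closed field `Ω` over `K`: the norm is the
product over the roots `θ` of `h` in `Ω` of the `A₀(θ) x₀ + A₁(θ) x₁ + A₂(θ) x₂`. -/
def OnCurve {Ω : Type*} [Field Ω] [Algebra K Ω] (h : K[X]) (A : Fin 3 → K[X]) (a : K)
    (Q : MvPolynomial (Fin 3) K) (n : ℕ) (x : Fin 3 → Ω) : Prop :=
  ((h.aroots Ω).map fun θ => ∑ j, aeval θ (A j) * x j).prod =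
    algebraMap K Ω a * MvPolynomial.aeval x Q ^ n

/-- The form `Q` does not vanish at the points of intersection of two of the lines
`A₀(θ) x₀ + A₁(θ) x₁ + A₂(θ) x₂ = 0`, for the roots `θ` of `h`.  (In particular these lines are
different.) -/
def Transversal (h : K[X]) (A : Fin 3 → K[X]) (Q : MvPolynomial (Fin 3) K) : Prop :=
  ∀ θ θ' : AlgebraicClosure K, aeval θ h = 0 → aeval θ' h = 0 → θ ≠ θ' →
    MvPolynomial.aeval (crossProduct (fun j => aeval θ (A j)) (fun j => aeval θ' (A j))) Q ≠ 0

/-- The curve has no point over `L`. -/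
def NoPoint (L : Type y) [Field L] [Algebra K L] (h : K[X]) (A : Fin 3 → K[X]) (a : K)
    (Q : MvPolynomial (Fin 3) K) (n : ℕ) : Prop :=
  ∀ x : Fin 3 → L, x ≠ 0 → ¬ OnCurve h A a Q n fun j => algebraMap L (AlgebraicClosure L) (x j)

/-- Let `F` be any field over `L` that contains a point of the curve, for instance the function field
of the curve over `L`, and let `Ω` be an algebraic closure of `F`.  Then for every set `U` of
valuation rings of `F` over `L` there is no section of `π₁(U) → G_L`.  If `F` is the function field of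
the curve, such `U` are given by its normalisation and by all its open subcurves. -/
def NoSection (L : Type y) [Field L] [Algebra K L] (h : K[X]) (A : Fin 3 → K[X]) (a : K)
    (Q : MvPolynomial (Fin 3) K) (n : ℕ) : Prop :=
  ∀ (F : Type v) (Ω : Type w) [Field F] [Field Ω] [Algebra L F] [Algebra F Ω] [Algebra L Ω]
    [Algebra K Ω] [IsScalarTower L F Ω] [IsScalarTower K L Ω] [IsAlgClosure F Ω] (x : Fin 3 → F)
    (U : Set (ValuationSubring F)), x ≠ 0 → OnCurve h A a Q n (fun j => algebraMap F Ω (x j)) →
      (∀ O ∈ U, ∀ c : L, algebraMap L F c ∈ O) → IsEmpty (GaloisSection L F Ω U)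

/-- For all finite extensions `L` of `K` and all `n | deg h` such that `gcd(n, D)` does not divide
`[L : K]`, all `A₀, A₁, A₂` and all forms `Q` of degree `deg h / n` over `K` that do not vanish at the
points of intersection of the conjugate lines, the curve `N(A₀ x₀ + A₁ x₁ + A₂ x₂) = a Qⁿ` has no point
and no section over `L`. -/
def NothingOver (h : K[X]) (D : ℕ) (a : K) : Prop :=
  ∀ (L : Type y) [Field L] [Algebra K L] [FiniteDimensional K L] (n q : ℕ),
    ¬ Nat.gcd n D ∣ Module.finrank K L → n * q = h.natDegree →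
      ∀ (A : Fin 3 → K[X]) (Q : MvPolynomial (Fin 3) K), Q.IsHomogeneous q → Transversal h A Q →
        NoPoint L h A a Q n ∧ NoSection.{u, v, w} L h A a Q n

end algebra

section extension

variable {K : Type u} {E : Type x} [Field K] [Field E] [Algebra K E] [FiniteDimensional K E]

/-- The same equation for a finite extension `E/K`: the norm is the product over the embeddings `σ` of
`E` into `Ω` of the `σ(A₀) x₀ + σ(A₁) x₁ + σ(A₂) x₂`. -/
def OnCurveE {Ω : Type*} [Field Ω] [Algebra K Ω] (A : Fin 3 → E) (a : K)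
    (Q : MvPolynomial (Fin 3) K) (n : ℕ) (x : Fin 3 → Ω) : Prop :=
  ∏ σ : E →ₐ[K] Ω, ∑ j, σ (A j) * x j = algebraMap K Ω a * MvPolynomial.aeval x Q ^ n

/-- The form `Q` does not vanish at the points of intersection of two conjugate lines
`σ(A₀) x₀ + σ(A₁) x₁ + σ(A₂) x₂ = 0`. -/
def TransversalE (A : Fin 3 → E) (Q : MvPolynomial (Fin 3) K) : Prop :=
  ∀ σ τ : E →ₐ[K] AlgebraicClosure K, σ ≠ τ →
    MvPolynomial.aeval (crossProduct (fun j => σ (A j)) (fun j => τ (A j))) Q ≠ 0

/-- The curve has no point over `L`. -/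
def NoPointE (L : Type y) [Field L] [Algebra K L] (A : Fin 3 → E) (a : K)
    (Q : MvPolynomial (Fin 3) K) (n : ℕ) : Prop :=
  ∀ x : Fin 3 → L, x ≠ 0 → ¬ OnCurveE A a Q n fun j => algebraMap L (AlgebraicClosure L) (x j)

/-- As `NoSection`, for the curve given by `E/K`. -/
def NoSectionE (L : Type y) [Field L] [Algebra K L] (A : Fin 3 → E) (a : K)
    (Q : MvPolynomial (Fin 3) K) (n : ℕ) : Prop :=
  ∀ (F : Type v) (Ω : Type w) [Field F] [Field Ω] [Algebra L F] [Algebra F Ω] [Algebra L Ω]
    [Algebra K Ω] [IsScalarTower L F Ω] [IsScalarTower K L Ω] [IsAlgClosure F Ω] (x : Fin 3 → F)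
    (U : Set (ValuationSubring F)), x ≠ 0 → OnCurveE A a Q n (fun j => algebraMap F Ω (x j)) →
      (∀ O ∈ U, ∀ c : L, algebraMap L F c ∈ O) → IsEmpty (GaloisSection L F Ω U)

variable (K E) in
/-- As `NothingOver`, for the curves given by `E/K`. -/
def NothingOverE (D : ℕ) (a : K) : Prop :=
  ∀ (L : Type y) [Field L] [Algebra K L] [FiniteDimensional K L] (n q : ℕ),
    ¬ Nat.gcd n D ∣ Module.finrank K L → n * q = Module.finrank K E →
      ∀ (A : Fin 3 → E) (Q : MvPolynomial (Fin 3) K), Q.IsHomogeneous q → TransversalE A Q →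
        NoPointE L A a Q n ∧ NoSectionE.{u, v, w} L A a Q n

end extension

section density

variable {K : Type u} [Field K]

/-- Density zero: for every `ε > 0` there is an ideal `I ≠ 0` such that `S` lies in at most
`ε #(O_K/I)` residue classes modulo `I`. -/
def DensityZero (S : Set (𝓞 K)) : Prop :=
  ∀ ε : ℝ, 0 < ε → ∃ I : Ideal (𝓞 K), I ≠ ⊥ ∧
    (Set.ncard ((Ideal.Quotient.mk I) '' S) : ℝ) ≤ ε * Nat.card (𝓞 K ⧸ I)

/-- The polynomial `H(t, T) ∈ K[T]` for `t ∈ O_K`. -/
noncomputable def atInt (H : (𝓞 K)[X][X]) (t : 𝓞 K) : K[X] :=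
  (H.map (evalRingHom t)).map (algebraMap (𝓞 K) K)

/-- The evaluation `p ↦ p(θ)` of the polynomials in `O_K[t]` at `θ ∈ K̄`. -/
noncomputable def at_ (θ : AlgebraicClosure K) : (𝓞 K)[X] →+* AlgebraicClosure K :=
  eval₂RingHom ((algebraMap K (AlgebraicClosure K)).comp (algebraMap (𝓞 K) K)) θ

/-- All cycles of `σ` on the roots of `P` have lengths divisible by `N`. -/
def CyclesDivisible (N : ℕ) (σ : AlgebraicClosure K ≃ₐ[K] AlgebraicClosure K)
    (P : (AlgebraicClosure K)[X]) : Prop :=
  ∀ ρ : AlgebraicClosure K, P.eval ρ = 0 → ∀ m : ℕ, (σ ^ m) ρ = ρ → N ∣ m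

/-- `θ` is a simple root of `g`, the polynomial `H(θ, T)` is separable, and `σ` fixes `θ` and permutes the
roots of `H(θ, T)` in cycles of lengths divisible by `N`. -/
def Special (N : ℕ) (g : (𝓞 K)[X]) (H : (𝓞 K)[X][X]) (θ : AlgebraicClosure K)
    (σ : AlgebraicClosure K ≃ₐ[K] AlgebraicClosure K) : Prop :=
  at_ θ g = 0 ∧ at_ θ g.derivative ≠ 0 ∧ (H.map (at_ θ)).Separable ∧ σ θ = θ ∧
    CyclesDivisible N σ (H.map (at_ θ))

end density

section proof

open IsDedekindDomain Pool.Agent.TH377.NC Pool.Agent.TH120.Sec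

lemma toSec {k : Type u} {F : Type v} {Ω : Type w} [Field k] [Field F] [Field Ω] [Algebra k F]
    [Algebra F Ω] [Algebra k Ω] (U : Set (ValuationSubring F))
    (h : IsEmpty (Pool.Agent.W620.SC.GSection k F Ω U)) : IsEmpty (GaloisSection k F Ω U) :=
  ⟨fun s => h.false ⟨s.toHom, s.cont, s.compat⟩⟩

/-- from the local data at a prime -/
theorem nothing_of_loc {K : Type u} [Field K] [NumberField K] (D : ℕ) (hD : 2 ≤ D)
    (v : HeightOneSpectrum (𝓞 K)) (P : (𝓞 K)[X]) (hP : P.Monic) (b : 𝓞 K)
    (hb : b ∈ v.asIdeal) (hb' : b ∉ v.asIdeal ^ 2) (d : ℕ) (hd : d ≠ 0)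
    (hloc : Loc v (Nat.gcd 2 D * D) d P) (hN : Nat.gcd 2 D * D ≠ 2) :
    NothingOver.{u, v, w, y} (P.map (algebraMap (𝓞 K) K)) D (algebraMap (𝓞 K) K b) := by
  intro L _ _ _ n q hL hnq A Q hQ htr
  have hNF : NumberField L := NumberField.of_module_finite K L
  obtain ⟨hdeg, -, hs, -, hc⟩ := hloc
  have hdvd : Nat.gcd 2 (Nat.gcd n D) * Nat.gcd n D ∣ Nat.gcd 2 D * D :=
    mul_dvd_mul (Nat.gcd_dvd_gcd_of_dvd_right _ (Nat.gcd_dvd_right n D)) (Nat.gcd_dvd_right n D)
  have hd0 : (P.map (algebraMap (𝓞 K) K)).natDegree ≠ 0 := by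
    rw [hP.natDegree_map, hdeg]
    exact hd
  obtain ⟨key1, key2⟩ := Pool.Agent.N168.NC.nf_both v (Nat.gcd n D)
    (Nat.gcd_pos_of_pos_right n (by omega)).ne' hL P hP hs
    (fun m hm => hc hN m fun h => hm (hdvd.trans h)) b hb hb'
    (P.map (algebraMap (𝓞 K) K)) rfl n q (Nat.gcd_dvd_left n D) hnq hd0 A Q hQ htr
  refine ⟨fun x hx hon => key1 x hx hon, ?_⟩
  intro F Ω _ _ _ _ _ _ _ _ _ x U hx hon hU
  exact toSec U (key2 F Ω x U hx hon hU)

lemma three_le (D : ℕ) (hD : 2 ≤ D) : 3 ≤ Nat.gcd 2 D * D := by
  rcases Nat.even_or_odd D with h | h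
  · have h1 : Nat.gcd 2 D = 2 := Nat.gcd_eq_left h.two_dvd
    rw [h1]
    omega
  · have h1 : Nat.gcd 2 D = 1 := Nat.coprime_two_left.2 h
    rw [h1, one_mul]
    rcases h with ⟨m, rfl⟩
    omega

/-- density zero, from `Spc` -/
theorem dz_of_spc {K : Type u} [Field K] [NumberField K] (g : (𝓞 K)[X]) (H : (𝓞 K)[X][X])
    (hH : H.Monic) (hd : H.natDegree ≠ 0) (D : ℕ) (hD : 2 ≤ D) (θ : AlgebraicClosure K)
    (σ : AlgebraicClosure K ≃ₐ[K] AlgebraicClosure K)
    (hs : Spc (Nat.gcd 2 D * D) g H θ σ) :
    DensityZero {t : 𝓞 K | ¬ NothingOver.{u, v, w, y} (atInt H t) D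
      (algebraMap (𝓞 K) K (g.eval t))} := by
  have hN := three_le D hD
  intro ε hε
  refine fam_dz _ g H θ σ hs _ ?_ ε hε
  intro t ht v ⟨h1, h2, h3⟩
  exact ht (nothing_of_loc D hD v (H.map (evalRingHom t)) (hH.map _) _ h1 h2 _ hd h3 (by omega))

/-- part 1 -/
theorem part1 {K : Type u} [Field K] [NumberField K] (g : (𝓞 K)[X]) (H : (𝓞 K)[X][X])
    (hH : H.Monic) (hd : 0 < H.natDegree) (D : ℕ) (hD : 2 ≤ D) (θ : AlgebraicClosure K)
    (σ : AlgebraicClosure K ≃ₐ[K] AlgebraicClosure K)
    (hs : Special (Nat.gcd 2 D * D) g H θ σ) :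
    DensityZero {t : 𝓞 K | ¬ NothingOver.{u, v, w, y} (atInt H t) D
      (algebraMap (𝓞 K) K (g.eval t))} := by
  have hN := three_le D hD
  obtain ⟨h1, h2, h3, h4, h5⟩ := hs
  refine dz_of_spc g H hH hd.ne' D hD θ σ ⟨h1, h2, ?_, h3, h4, ?_, ?_⟩
  · rw [hH.leadingCoeff, map_one]
    exact one_ne_zero
  · intro ρ hρ h
    have h6 := Nat.le_of_dvd one_pos (h5 ρ hρ 1 (by rw [pow_one]; exact h))
    omega
  · intro _ m hm ρ hρ h
    refine hm (h5 ρ hρ m ?_)
    rw [AlgEquiv.coe_pow]
    exact h

/-- the two forms of the equation -/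
theorem on_iff {K : Type u} [Field K] [CharZero K] {E : Type x} [Field E] [Algebra K E]
    [FiniteDimensional K E] (pb : PowerBasis K E) (P : Fin 3 → K[X]) (a : K)
    (Q : MvPolynomial (Fin 3) K) (n : ℕ) {Ω : Type y} [Field Ω] [IsAlgClosed Ω] [Algebra K Ω]
    (z : Fin 3 → Ω) (h : OnCurveE (fun j => aeval pb.gen (P j)) a Q n z) :
    OnCurve (minpoly K pb.gen) P a Q n z := by
  unfold OnCurveE at h
  unfold OnCurve
  rw [← h, ← prod_emb pb]
  refine Finset.prod_congr rfl fun σ _ => Finset.sum_congr rfl fun j _ => ?_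
  rw [emb_val]

/-- from the algebra `K[T]/(minpoly)` to `E` -/
theorem toE {K : Type u} [Field K] [CharZero K] {E : Type x} [Field E] [Algebra K E]
    [FiniteDimensional K E] (pb : PowerBasis K E) (D : ℕ) (a : K)
    (h : NothingOver.{u, v, w, y} (minpoly K pb.gen) D a) :
    NothingOverE.{u, v, w, x, y} K E D a := by
  intro L _ _ _ n q hL hnq A Q hQ htr
  choose P hP using fun j => pb.exists_eq_aeval' (A j)
  obtain rfl : A = fun j => aeval pb.gen (P j) := funext hP
  have hdeg : (minpoly K pb.gen).natDegree = Module.finrank K E := by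
    rw [pb.natDegree_minpoly, ← pb.finrank]
  have htr' : Transversal (minpoly K pb.gen) P Q := by
    intro θ θ' hθ hθ' hne
    obtain ⟨σ, rfl⟩ := exists_emb pb θ hθ
    obtain ⟨τ, rfl⟩ := exists_emb pb θ' hθ'
    have h1 := htr σ τ (by rintro rfl; exact hne rfl)
    simp only [emb_val] at h1
    exact h1
  obtain ⟨h1, h2⟩ := h L n q hL (by rw [hnq, hdeg]) P Q hQ htr'
  refine ⟨fun x hx hon => h1 x hx (on_iff pb P a Q n _ hon), ?_⟩
  intro F Ω _ _ _ _ _ _ _ _ _ x U hx hon hU
  have hcl : IsAlgClosed Ω := IsAlgClosure.isAlgClosed F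
  exact h2 F Ω x U hx (on_iff pb P a Q n _ hon) hU

/-- The case of a constant extension `E/K`: if some `σ ∈ G_K` permutes the embeddings of `E` into `K̄` in
cycles of lengths divisible by `gcd(2, D) D`, then for all `a ∈ O_K` outside a set of density zero all the
curves `N_{E/K}(A₀ x₀ + A₁ x₁ + A₂ x₂) = a Qⁿ` have no points and no sections over all `L/K` with
`gcd(n, D) ∤ [L : K]`. -/
theorem constant_extension {K : Type u} [Field K] [NumberField K] (E : Type x) [Field E] [Algebra K E]
    [FiniteDimensional K E] (D : ℕ) (hD : 2 ≤ D)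
    (σ : AlgebraicClosure K ≃ₐ[K] AlgebraicClosure K)
    (hσ : ∀ (τ : E →ₐ[K] AlgebraicClosure K) (m : ℕ), (∀ z, (σ ^ m) (τ z) = τ z) →
      Nat.gcd 2 D * D ∣ m) :
    DensityZero {a : 𝓞 K | ¬ NothingOverE.{u, v, w, x, y} K E D (algebraMap (𝓞 K) K a)} := by
  obtain ⟨pb, g, hg, hgK, hdeg⟩ := exists_gen K E
  have hspc := spc_of_gen pb g hg hgK _ (three_le D hD) σ hσ
  have hd : (g.map (C : 𝓞 K →+* (𝓞 K)[X])).natDegree ≠ 0 := by
    rw [hg.natDegree_map, hdeg]
    exact Module.finrank_pos.ne'
  have h1 := dz_of_spc.{u, v, w, y} X (g.map C) (hg.map _) hd D hD 0 σ hspc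
  intro ε hε
  obtain ⟨I, hI, h2⟩ := h1 ε hε
  refine ⟨I, hI, le_trans ?_ h2⟩
  have hfin : Finite (𝓞 K ⧸ I) := Ideal.finiteQuotientOfFreeOfNeBot _ hI
  have hsub : {a : 𝓞 K | ¬ NothingOverE.{u, v, w, x, y} K E D (algebraMap (𝓞 K) K a)} ⊆
      {t : 𝓞 K | ¬ NothingOver.{u, v, w, y} (atInt (g.map C) t) D
        (algebraMap (𝓞 K) K ((X : (𝓞 K)[X]).eval t))} := by
    intro a ha h
    apply ha
    have e1 : atInt (g.map C) a = minpoly K pb.gen := by
      have e2 : (evalRingHom a).comp (C : 𝓞 K →+* (𝓞 K)[X]) = RingHom.id _ := by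
        ext z
        simp
      unfold atInt
      rw [Polynomial.map_map, Polynomial.map_map, RingHom.comp_assoc, e2, RingHom.comp_id, hgK]
    rw [e1, eval_X] at h
    exact toE pb D _ h
  exact_mod_cast Set.ncard_le_ncard (Set.image_mono hsub) (Set.toFinite _)

end proof

/-- Let `K` be a number field, `g ∈ O_K[t]`, `H ∈ O_K[t][T]` monic in `T` of degree `d ≥ 1`, and
`D ≥ 2`.  Suppose that `σ ∈ G_K` fixes a simple root `θ` of `g` such that `H(θ, T)` is separable, and
permutes the roots of `H(θ, T)` in cycles of lengths divisible by `gcd(2, D) D`.  Then for all `t ∈ O_K`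
outside a set of density zero, for all `n | d`, all finite `L/K` such that `gcd(n, D) ∤ [L : K]`, all
`A₀, A₁, A₂ ∈ E_t = K[T]/(H(t, T))` and all forms `Q` of degree `d/n` that do not vanish at the
intersection points of the conjugate lines, the plane curve `N_{E_t/K}(A₀ x₀ + A₁ x₁ + A₂ x₂) = g(t) Qⁿ`
has no point over `L`, and the fundamental groups of its open subcurves over `L` and of all smooth curves
over `L` that dominate it have no section over `G_L`. -/
theorem result (K : Type u) [Field K] [NumberField K] (g : (𝓞 K)[X]) (H : (𝓞 K)[X][X])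
    (hH : H.Monic) (hd : 0 < H.natDegree) (D : ℕ) (hD : 2 ≤ D) (θ : AlgebraicClosure K)
    (σ : AlgebraicClosure K ≃ₐ[K] AlgebraicClosure K)
    (hs : Special (Nat.gcd 2 D * D) g H θ σ) :
    DensityZero {t : 𝓞 K | ¬ NothingOver.{u, v, w, y} (atInt H t) D
      (algebraMap (𝓞 K) K (g.eval t))} :=
  part1 g H hH hd D hD θ σ hs

end Pool.Agent.Results.MP_2f3286_ag.NormCurveFamilies
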