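import Pool.Agent.N168.TE.Sec

/-!
# Locally geometric sections over Galois 2-extensions: the points at two are torsion points

Let `E_1, …, E_n` be elliptic curves `y² = x³ + a x + b` over `ℚ` with integral coefficients and
trivial 2-Selmer groups over `ℚ`, for example `X_0(11)`. Let `K` be any Galois extension of `ℚ` of
degree a power of two, which need not be abelian, ramified only at primes `l` of good reduction such
that the number of the points of every `E_i` over `ℤ/l` is odd, in which the primes dividing the
discriminants and two split completely, and totally real if one of the discriminants is positive.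
Let `X` be any closed subset of `E_1 × … × E_n` over `K`, let `C` be a smooth curve over `K` with
function field `F` and a map to `X`, that is, a point `P` of `X(F)`, and let `s` be a section of the
map from `π₁(C)` to the absolute Galois group of `K` which is given over the completion of `K` at each
finite place `v` by a point (or a cusp), that is, by a place `p v` of the field `M` of `π₁(C)`.

Then the points at the places `v` above two lie over torsion points of `E_1 × … × E_n`, of order two
times an odd number at most, and, if the points of such orders over `ℚ_2` are rational as for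
`X_0(11)`, over points of `X` in `E_1(ℚ) × … × E_n(ℚ)`. So if `X` contains no such point there is no
section. Moreover twice the image of `s` in the pro-2 fundamental group of each `E_i` is the trivial
section. Nothing is assumed about the Tate-Shafarevich groups of the `E_i` over `K`.

The fundamental group is described as in the other files of this folder: `C` is the set of the
valuation rings of the points of the curve, and the field `M` can be any extension of `F` which embeds
in the algebraic closure `Ω` and contains the maximal extension of `F` unramified over `C`.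
-/

set_option autoImplicit false

open IsDedekindDomain NumberField WeierstrassCurve MvPolynomial Pool.Agent.TH954
  Pool.Agent.W620.SC

open scoped Classical

namespace Pool.Agent.Results.MP_2f3286_ag.SectionsOverTwoExtensions

/-- `W` is an elliptic curve `y² = x³ + a x + b` with integral coefficients. -/
def IsShort (W : WeierstrassCurve ℤ) : Prop := (W.a₁ = 0 ∧ W.a₂ = 0 ∧ W.a₃ = 0) ∧ W.Δ ≠ 0

/-- The 2-Selmer group of `W` over `ℚ` is trivial: `W(ℚ)` is finite of odd order and `Ш(W/ℚ)` has no
element of order two. -/
def TrivialTwoSelmer (W : WeierstrassCurve ℤ) : Prop :=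
  Finite (W.map (Int.castRingHom ℚ)).toAffine.Point ∧
  Odd (Nat.card (W.map (Int.castRingHom ℚ)).toAffine.Point) ∧
  ∀ s : Pool.Agent.TH841.NF.D.Sha (W.map (Int.castRingHom ℚ)), 2 • s = 0 → s = 0

/-- All the points of `W(ℚ_2)` of orders dividing two times an odd number are rational. -/
def TorsionRational (W : WeierstrassCurve ℤ) : Prop :=
  ∀ (P : (W.map (Int.castRingHom ℚ_[2])).toAffine.Point) (m : ℕ), Odd m → (2 * m) • P = 0 →
    ∃ y : (W.map (Int.castRingHom ℚ)).toAffine.Point, ∀ j, crd P j = algebraMap ℚ ℚ_[2] (crd y j)

/-- The number of the points of `W` over `ℤ/l`, with the point at infinity. -/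
noncomputable def pointCount (W : WeierstrassCurve ℤ) (l : ℕ) : ℕ :=
  Nat.card {P : ZMod l × ZMod l //
    (W.map (Int.castRingHom (ZMod l))).toAffine.Equation P.1 P.2} + 1

/-- `K` is a Galois extension of `ℚ` of degree a power of two, ramified only at primes `l ∤ 2 ∏ Δ_i` such
that the numbers of the points of the curves over `ℤ/l` are odd; the prime ideals containing
`2 ∏ Δ_i` have residue degree one (and, `K` being Galois and unramified at them, these primes split
completely); and if one of the discriminants is positive then `K` is totally real. -/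
structure IsTwoExtension {n : ℕ} (W : Fin n → WeierstrassCurve ℤ) (K : Type) [Field K]
    [NumberField K] : Prop where
  galois : IsGalois ℚ K
  degree : ∃ j, Module.finrank ℚ K = 2 ^ j
  ramified : ∀ l : ℕ, l.Prime → (l : ℤ) ∣ NumberField.discr K →
    ¬ (l : ℤ) ∣ 2 * ∏ i, (W i).Δ ∧ ∀ i, Odd (pointCount (W i) l)
  split : ∀ v : HeightOneSpectrum (𝓞 K), ((2 * ∏ i, (W i).Δ : ℤ) : 𝓞 K) ∈ v.asIdeal →
    (Ideal.absNorm v.asIdeal).Prime
  real : ∀ i, 0 < (W i).Δ → ∀ v : InfinitePlace K, v.IsReal

/-- The curve `y² = x³ - 13392 x - 1080432`, a short equation of `X_0(11)`. -/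
def X11 : WeierstrassCurve ℤ := ⟨0, 0, 0, -13392, -1080432⟩

/-- Twice the image of the section `s` in the pro-2 fundamental group of `E`, through the point `P`
of `E` over `F`, is the trivial section: for every `k` there is a point `Q` of `E` over `M` with
`2 ^ k • Q = 2 • P` which is fixed by all the `s g`. -/
def TwiceTrivial {K F M B : Type} [Field K] [Field F] [Field M] [Field B] [Algebra K F]
    [Algebra F M] [Algebra K M] [Algebra K B] [IsScalarTower K F M] (s : GalSection K F M B)
    (E : WeierstrassCurve K) (P : (E.baseChange F).toAffine.Point) : Prop :=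
  ∀ k : ℕ, ∃ Q : (E.baseChange M).toAffine.Point,
    2 ^ k • Q = 2 • Affine.Point.map (W' := E) (IsScalarTower.toAlgHom K F M) P ∧
    ∀ g : B ≃ₐ[K] B,
      Affine.Point.map (W' := E) ((s.s g : M →ₐ[F] M).restrictScalars K) Q = Q

/-- At the places `v` above two the place `p v` maps the point `P` to a point of `X(K_v)` whose
components are torsion points of orders dividing two times an odd number. -/
def TorsionAtTwo {K F M : Type} [Field K] [NumberField K] [Field F] [Field M] [Algebra K F]
    [Algebra F M] [Algebra K M] {n : ℕ} (W : Fin n → WeierstrassCurve ℤ)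
    (S : Set (MvPolynomial (Fin n × Fin 3) K))
    (P : (i : Fin n) → (((W i).map (Int.castRingHom K)).baseChange F).toAffine.Point)
    (p : ∀ v : HeightOneSpectrum (𝓞 K), Plc K M (AlgebraicClosure (v.adicCompletion K))) : Prop :=
  ∀ v : HeightOneSpectrum (𝓞 K), ((2 : ℕ) : 𝓞 K) ∈ v.asIdeal →
    ∃ Q : (i : Fin n) → (((W i).map (Int.castRingHom K)).baseChange
        (v.adicCompletion K)).toAffine.Point,
      OnX S (fun i => crd (Q i)) ∧ (∀ i, ∃ m : ℕ, Odd m ∧ (2 * m) • Q i = 0) ∧
      ∀ i, (p v).Spec (fun j => algebraMap F M (crd (P i) j))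
        (fun j => algebraMap (v.adicCompletion K) (AlgebraicClosure (v.adicCompletion K))
          (crd (Q i) j))

/-- At the places `v` above two the place `p v` maps the point `P` to a point of `X` which is in
`E_1(ℚ) × … × E_n(ℚ)`. -/
def RationalAtTwo {K F M : Type} [Field K] [NumberField K] [Field F] [Field M] [Algebra K F]
    [Algebra F M] [Algebra K M] {n : ℕ} (W : Fin n → WeierstrassCurve ℤ)
    (S : Set (MvPolynomial (Fin n × Fin 3) K))
    (P : (i : Fin n) → (((W i).map (Int.castRingHom K)).baseChange F).toAffine.Point)
    (p : ∀ v : HeightOneSpectrum (𝓞 K), Plc K M (AlgebraicClosure (v.adicCompletion K))) : Prop :=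
  ∀ v : HeightOneSpectrum (𝓞 K), ((2 : ℕ) : 𝓞 K) ∈ v.asIdeal →
    ∃ y : (i : Fin n) → ((W i).map (Int.castRingHom ℚ)).toAffine.Point,
      (∀ f ∈ S, eval (fun p => algebraMap ℚ K (crd (y p.1) p.2)) f = 0) ∧
      ∀ i, (p v).Spec (fun j => algebraMap F M (crd (P i) j))
        (fun j => algebraMap K (AlgebraicClosure (v.adicCompletion K))
          (algebraMap ℚ K (crd (y i) j)))

lemma ext_of {K : Type} [Field K] [NumberField K] {n : ℕ} {W : Fin n → WeierstrassCurve ℤ}
    (h : IsTwoExtension W K) : Pool.Agent.R425.D.TwoExt W K :=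
  ⟨h.galois, h.degree, h.ramified, h.split, h.real⟩

theorem result :
    (∀ (n : ℕ) (W : Fin n → WeierstrassCurve ℤ), (∀ i, IsShort (W i)) →
      (∀ i, TrivialTwoSelmer (W i)) →
      ∀ (K : Type) [Field K] [NumberField K], IsTwoExtension W K →
      ∀ (S : Set (MvPolynomial (Fin n × Fin 3) K)) (_ : ∀ f ∈ S, ∃ d, MultiHom d f)
        (F Ω M B : Type) [Field F] [Field Ω] [Field M] [Field B] [Algebra K F] [Algebra F Ω]
        [Algebra K Ω] [Algebra F M] [Algebra K M] [Algebra K B] [IsScalarTower K F Ω]
        [IsScalarTower K F M] [IsAlgClosure F Ω] [IsAlgClosure K B]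
        (C : Set (ValuationSubring F)) (_ : ∀ O ∈ C, ∀ c : K, algebraMap K F c ∈ O)
        (e : M →ₐ[F] Ω) (_ : unramified F Ω C ≤ e.fieldRange)
        (P : (i : Fin n) → (((W i).map (Int.castRingHom K)).baseChange F).toAffine.Point)
        (_ : OnX S (fun i => crd (P i))) (s : GalSection K F M B)
        (p : ∀ v : HeightOneSpectrum (𝓞 K), Plc K M (AlgebraicClosure (v.adicCompletion K)))
        (_ : ∀ v, s.GivenBy (v.adicCompletion K) (p v)),
        (∀ i, TwiceTrivial s ((W i).map (Int.castRingHom K)) (P i)) ∧
        TorsionAtTwo W S P p ∧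
        ((∀ i, TorsionRational (W i)) → RationalAtTwo W S P p)) ∧
    (IsShort X11 ∧ TrivialTwoSelmer X11 ∧ TorsionRational X11) := by
  refine ⟨?_, ⟨⟨rfl, rfl, rfl⟩, Pool.Agent.R425.D.disc11⟩, Pool.Agent.R425.D.sel11s,
    Pool.Agent.R425.D.twoOddRat11⟩
  intro n W hW hT K _ _ hK S hS F Ω M B _ _ _ _ _ _ _ _ _ _ _ _ _ _ C hC e he P hP s p hp
  obtain ⟨h1, h2, h3⟩ := Pool.Agent.N168.TE.main (fun i => (hW i).1) (fun i => (hW i).2) hT
    (ext_of hK) S hS C hC e he P hP s p hp
  refine ⟨h1, fun v hv => ?_, h3⟩
  obtain ⟨Q, hQ1, hQ2, -, hQ3⟩ := h2 v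
  exact ⟨Q, hQ1, hQ3 hv, hQ2⟩

end Pool.Agent.Results.MP_2f3286_ag.SectionsOverTwoExtensions
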