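import Pool.Agent.N168.TP.Kum

/-!
# Sections for the line minus three points over `ℤ[1/ℓ]`, relative to the regular prime `ℓ`

Let `ℓ` be an odd regular prime and `U = ℙ¹ ∖ {0, 1, ∞}`.  For an odd prime `ℓ` the scheme `U` has no
points over `ℤ[1/ℓ]`, as `x` and `1 - x` cannot both be powers of `ℓ` up to the sign.  We prove the
analogous statement for sections of the geometrically pro-`ℓ` fundamental group:

*Let `s` be a section of `π₁(U)^(ℓ) → G_ℚ` which is unramified outside `ℓ`, and which over `ℚ_ℓ` (or only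
over `ℚ_ℓ(ζ_ℓ)`) is given by a point of `U` or by a cusp.  Then it is there given by a cusp.*

In particular no section of the geometrically pro-`ℓ` fundamental group of `U` over `ℤ[1/ℓ]` is given
over `ℚ_ℓ` by a point of `U`.  So the section conjecture over `ℤ[1/ℓ]` for the sections that are given by
local points (the Selmer sections) holds in the pro-`ℓ` version which only uses the place `ℓ`: the point
set `U(ℤ[1/ℓ])` is empty and there is no such section.  Nothing is assumed at the other primes besides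
the integrality.  We only assume that the abelianised section is unramified outside `ℓ`: for every
valuation ring `V` of `ℚ̄` whose residue characteristic is not `ℓ` and every `σ` in its inertia group
the automorphism `s σ` fixes the roots `x ^ (1 / ℓ ^ n)` and `(1 - x) ^ (1 / ℓ ^ n)`.  This is so for the
sections of `π₁(U ⊗ ℤ[1/ℓ])`, since these roots generate étale coverings of `U ⊗ ℤ[1/ℓ]`.

The hypotheses cannot be replaced by conditions on the abelianised fundamental group.  If
`ℓ ≡ 1 mod 3` then a primitive sixth root of unity `η ∈ ℚ_ℓ` is a point of `U` over `ℚ_ℓ` for which `η`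
and `1 - η = η⁻¹` are `ℓ ^ n`-th powers for all `n`, so that it gives the same section of the
abelianised fundamental group as a pair of trivial Kummer classes over `ℚ`.  The theorem excludes that
it belongs to a section of `π₁(U)^(ℓ)` over `ℚ`.

The theorem is stated for the function fields `F` of transcendence degree one over `ℚ` with a
nonconstant element `x`, and for the sections `s` of a quotient `Gal(N/F)` of the absolute Galois group
of `F`, where `N` contains the maximal pro-`ℓ` extension `TripodEll` of `ℚ̄(x)` which is unramified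
outside `0`, `1`, `∞`.  For `F = ℚ(x)` and `N` equal to this extension `Gal(N/F)` is `π₁(U)^(ℓ)`; for
larger `F` and `N` it contains the sections of all curves with a nonconstant map to `U`.  The local point
is a place `p` of `N` with values in an algebraic closure of `ℚ_ℓ(ζ_ℓ)`, which is the completion `K_v` of
`K = ℚ(ζ_ℓ)` at the place `v` above `ℓ`; the place `p` may also be above a cusp, and the conclusion is
that it is.

Proof.  The roots of `x` and `1 - x` are in `TripodEll`; by Hilbert 90 and the hypothesis on inertia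
`x = ℓ ^ i z ^ (ℓ ^ n)` with an integer `i` and an element `z` fixed by `s`, for every `n`, and the same
holds for `1 - x`.  If the local point is not a cusp, then its coordinate `c` satisfies
`c, 1 - c ∈ ℓ ^ ℤ (K_v^×) ^ (ℓ ^ n)` for all `n`, and it follows that `c` and `1 - c` are units, and that
the Kummer classes of `x` and `1 - x` modulo `ℓ` are trivial.  So `s` comes from a section of the
geometrically pro-`ℓ` fundamental group of the Fermat curve of exponent `ℓ`, whose covering field is
contained in `TripodEll` (`Pool.Agent.Y158.FQ.geomPro_tripod`), and Kummer's proof of Fermat's last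
theorem for regular primes, carried out in the fixed field of the section over `K`, shows that the local
point is a cusp (`Pool.Agent.Y158`).
-/

set_option autoImplicit false

open IsDedekindDomain NumberField Pool.Agent.TH954

namespace Pool.Agent.Results.MP_2f3286_ag.Tripod

section definitions

/-- `z` is a unit of the valuation ring `W`. -/
def IsUnitAt {Ω : Type} [Field Ω] (W : ValuationSubring Ω) (z : Ω) : Prop :=
  z ≠ 0 ∧ z ∈ W ∧ z⁻¹ ∈ W

/-- `σ` is in the inertia group of the valuation ring `V` of `B`: it maps `V` onto itself and acts as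
the identity on its residue field. -/
def InertiaAt {B : Type} [Field B] [Algebra ℚ B] (V : ValuationSubring B) (σ : B ≃ₐ[ℚ] B) : Prop :=
  (∀ z, σ z ∈ V ↔ z ∈ V) ∧ ∀ z ∈ V, σ z - z ∈ V.nonunits

/-- For the line minus three points: the maximal extension in `Ω` of `ℚ̄(x)` which is a union of finite
Galois extensions `L` of degree a power of `ℓ` that are unramified outside `x = 0, 1, ∞`, that is, for
each valuation ring `W` over `ℚ` at which `x` and `1 - x` are units each nonzero element of `L` has
the same value as an element of `ℚ̄(x)`. -/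
def TripodEll (ℓ : ℕ) {Ω : Type} [Field Ω] [Algebra ℚ Ω] (x : Ω) : Set Ω :=
  {z | ∃ L : IntermediateField (IntermediateField.adjoin (algebraicClosure ℚ Ω) {x}) Ω,
    z ∈ L ∧ FiniteDimensional (IntermediateField.adjoin (algebraicClosure ℚ Ω) {x}) L ∧
    IsGalois (IntermediateField.adjoin (algebraicClosure ℚ Ω) {x}) L ∧
    (∃ m : ℕ, Module.finrank (IntermediateField.adjoin (algebraicClosure ℚ Ω) {x}) L = ℓ ^ m) ∧
    ∀ W : ValuationSubring Ω, (∀ c : ℚ, algebraMap ℚ Ω c ∈ W) → IsUnitAt W x →
      IsUnitAt W (1 - x) → ∀ y ∈ L, y ≠ 0 →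
        ∃ t ∈ IntermediateField.adjoin (algebraicClosure ℚ Ω) {x}, t ≠ 0 ∧ IsUnitAt W (y / t)}

/-- The abelianised section is unramified outside `ℓ`: the inertia groups of the valuation rings of `ℚ̄`
whose residue characteristic is not `ℓ` fix the `ℓ ^ n`-th roots of `x` and `1 - x`. -/
def UnramifiedOutside (ℓ : ℕ) {F Ω B : Type} [Field F] [Field Ω] [Field B] [Algebra ℚ F]
    [Algebra F Ω] [Algebra ℚ Ω] [Algebra ℚ B] [IsScalarTower ℚ F Ω] {N : IntermediateField F Ω}
    (s : GalSection ℚ F N B) (x : F) : Prop :=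
  ∀ V : ValuationSubring B, IsUnitAt V (ℓ : B) → ∀ σ : B ≃ₐ[ℚ] B, InertiaAt V σ →
    ∀ (n : ℕ) (z : N), z ^ (ℓ ^ n) = algebraMap F N x ∨ z ^ (ℓ ^ n) = algebraMap F N (1 - x) →
      s.s σ z = z

end definitions

/-- The roots exist: `TripodEll` contains all `ℓ ^ n`-th roots of `x` and `1 - x`. -/
theorem root_mem {ℓ : ℕ} [Fact ℓ.Prime] {F Ω : Type} [Field F] [Field Ω] [Algebra ℚ F]
    [Algebra F Ω] [Algebra ℚ Ω] [IsScalarTower ℚ F Ω] [IsAlgClosed Ω] [Algebra.IsAlgebraic F Ω]
    (x : F) (hx : Transcendental ℚ x)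
    (hF : Algebra.IsAlgebraic (IntermediateField.adjoin ℚ {x}) F) (n : ℕ) (z : Ω)
    (hz : z ^ (ℓ ^ n) = algebraMap F Ω x ∨ z ^ (ℓ ^ n) = 1 - algebraMap F Ω x) :
    z ∈ TripodEll ℓ (algebraMap F Ω x) := by
  obtain ⟨L, h1, h2, h3⟩ := Pool.Agent.N168.TP.root_mem x hx hF n z hz
  exact ⟨L, h1, h2.fin, h2.gal, h2.card, h3⟩

/-- **Sections for the line minus three points over `ℤ[1/ℓ]`, relative to `ℓ`.**  Let `ℓ` be an odd
prime that does not divide the class number of `K = ℚ(ζ_ℓ)`, let `F` be a function field of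
transcendence degree one over `ℚ` with algebraic closure `Ω`, and let `x` be a nonconstant element of
`F`.  Let `N` be an extension of `F` in `Ω` that contains the maximal pro-`ℓ` extension of `ℚ̄(x)`
unramified outside `0`, `1`, `∞`, and let `s` be a section of `Gal(N/F) → G_ℚ` whose abelianisation is
unramified outside `ℓ`.  Let `p` be a place of `N` with values in the algebraic closure of `ℚ_ℓ(ζ_ℓ)`
that gives `s` over `ℚ_ℓ(ζ_ℓ)`.  Then `x` has the value `0`, `1` or `∞` at `p`. -/
theorem result (ℓ : ℕ) [Fact ℓ.Prime] (hℓ : ℓ ≠ 2) (K : Type) [Field K] [NumberField K]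
    [IsCyclotomicExtension {ℓ} ℚ K] (hreg : ¬ ℓ ∣ classNumber K)
    (F Ω B : Type) [Field F] [Field Ω] [Field B] [Algebra ℚ F] [Algebra F Ω] [Algebra ℚ Ω]
    [Algebra ℚ B] [IsScalarTower ℚ F Ω] [IsAlgClosed Ω] [Algebra.IsAlgebraic F Ω]
    [IsAlgClosure ℚ B] (x : F) (hx : Transcendental ℚ x)
    (hF : Algebra.IsAlgebraic (IntermediateField.adjoin ℚ {x}) F)
    (N : IntermediateField F Ω) (hN : TripodEll ℓ (algebraMap F Ω x) ⊆ N)
    (s : GalSection ℚ F N B) (hs : UnramifiedOutside ℓ s x)
    (v : HeightOneSpectrum (𝓞 K)) (hv : (ℓ : 𝓞 K) ∈ v.asIdeal)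
    (p : Plc ℚ N (AlgebraicClosure (v.adicCompletion K)))
    (hp : s.GivenBy (v.adicCompletion K) p) :
    p.val (algebraMap F N x) 0 ∨ p.val (algebraMap F N x) 1 ∨ p.val (algebraMap F N x)⁻¹ 0 := by
  have hℓp : ℓ.Prime := Fact.out
  have hℓ2 : 2 < ℓ := lt_of_le_of_ne hℓp.two_le (Ne.symm hℓ)
  have hodd : Odd ℓ := hℓp.odd_of_ne_two hℓ
  have hcop : (classNumber K).Coprime ℓ := ((Nat.Prime.coprime_iff_not_dvd hℓp).2 hreg).symm
  have hKL := Pool.Agent.Y158.KL.kummer_lemma (IsCyclotomicExtension.zeta_spec ℓ ℚ K) hℓ2 hcop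
  obtain ⟨ζ, hζ⟩ : ∃ ζ : K, IsPrimitiveRoot ζ ℓ := ⟨_, IsCyclotomicExtension.zeta_spec ℓ ℚ K⟩
  have hvl : v = Pool.Agent.Y158.KL.lam hζ := by
    by_contra hne
    exact Pool.Agent.Y158.GR.ell_notMem hζ hne hv
  subst hvl
  have hx0 : x ≠ 0 := by
    rintro rfl
    exact hx isAlgebraic_zero
  have hx1 : 1 - x ≠ 0 := by
    intro h3
    have h4 : x = 1 := by linear_combination -h3
    rw [h4] at hx
    exact hx isAlgebraic_one
  have key : ∀ y : F, y ≠ 0 → (y = x ∨ y = 1 - x) → ∀ n : ℕ, ∃ (ε : ℤˣ) (i : ℤ) (z : N),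
      (∀ g, s.s g z = z) ∧
      algebraMap F N y = algebraMap ℚ N (((ε : ℤ) : ℚ) * (ℓ : ℚ) ^ i) * z ^ (ℓ ^ n) := by
    intro y hy hyx n
    obtain ⟨z, hz⟩ := IsAlgClosed.exists_pow_nat_eq (algebraMap F Ω y) (pow_pos hℓp.pos n)
    have hzx : z ^ (ℓ ^ n) = algebraMap F Ω x ∨ z ^ (ℓ ^ n) = 1 - algebraMap F Ω x := by
      rcases hyx with rfl | rfl
      · exact Or.inl hz
      · right
        rw [hz, map_sub, map_one]
    have hzN : z ∈ N := hN (root_mem x hx hF n z hzx)
    have hz' : (⟨z, hzN⟩ : N) ^ (ℓ ^ n) = algebraMap F N y := Subtype.ext hz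
    obtain ⟨i, z', h1, h2⟩ := Pool.Agent.N168.TP.kum_class hodd N s y hy n ⟨z, hzN⟩ hz'
      (fun V hV σ hσ => hs V hV σ hσ n ⟨z, hzN⟩ (by
        rcases hyx with rfl | rfl
        · exact Or.inl hz'
        · exact Or.inr hz'))
    exact ⟨1, i, z', h1, by simpa using h2⟩
  exact Pool.Agent.Y158.FQ.tripFin hζ hodd hcop hKL x hx hF N (fun z ⟨L, h1, h2, h3⟩ =>
    hN ⟨L, h1, h2.fin, h2.gal, h2.card, h3⟩) s p hp (key x hx0 (Or.inl rfl))
    (key (1 - x) hx1 (Or.inr rfl))

end Pool.Agent.Results.MP_2f3286_ag.Tripod
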